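import Pool.Agent.Run7.h437.LbChain
import Pool.Agent.Run7.h437.LbBridge

/-!
# Hofstadter's consecutive-sum sequence: the excess is at least `log n / (200 log log n)`

`a_n ≥ n + (1/200) log n / log log n` for all large `n`.
-/

set_option autoImplicit false

namespace Pool.Agent.Results.MP_0b4958_nt.LowerLogOverLogLog

open Run7.h437 in
theorem result :
    ∀ a : ℕ → ℕ, a 1 = 1 → a 2 = 2 →
      (∀ n : ℕ, 3 ≤ n →
        IsLeast {m : ℕ | a (n - 1) < m ∧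
          ∃ i j : ℕ, 1 ≤ i ∧ i < j ∧ j < n ∧ m = ∑ k ∈ Finset.Icc i j, a k} (a n)) →
      ∃ N : ℕ, ∀ n : ℕ, N ≤ n →
        (n : ℝ) + 1 / 200 * (Real.log n / Real.log (Real.log n)) ≤ (a n : ℝ) := by
  intro a h1 h2 h
  obtain ⟨hrep, hcount⟩ := rep_of_rule a h1 h2 h
  obtain ⟨N0, hN0⟩ := missing_lower
  refine ⟨N0 + 1, ?_⟩
  intro n hn
  have h3 := hN0 _ hrep n (by omega)
  have h4 := hcount n (by omega)
  have h5 : (miss {t : ℕ | ∃ i, 1 ≤ i ∧ a i = t} 1 n).card ≤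
      (miss {t : ℕ | ∃ i, 1 ≤ i ∧ a i = t} 1 (a n)).card :=
    Finset.card_le_card (miss_mono le_rfl (by omega))
  have h6 : (a n : ℝ) = n + ((miss {t : ℕ | ∃ i, 1 ≤ i ∧ a i = t} 1 (a n)).card : ℝ) := by
    exact_mod_cast h4
  have h7 : ((miss {t : ℕ | ∃ i, 1 ≤ i ∧ a i = t} 1 n).card : ℝ) ≤
      ((miss {t : ℕ | ∃ i, 1 ≤ i ∧ a i = t} 1 (a n)).card : ℝ) := by exact_mod_cast h5
  rw [h6]
  linarith

end Pool.Agent.Results.MP_0b4958_nt.LowerLogOverLogLog
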