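import Pool.Agent.Run7.h437.Upper
import Pool.Agent.Run7.h437.Bridge

/-!
# Hofstadter's consecutive-sum sequence: a smaller exponent in the upper bound

`a_n ≤ C_ε n^((1+√10)/3 + ε)`, where `(1+√10)/3 = 1.3874…`.
-/

set_option autoImplicit false

namespace Pool.Agent.Results.MP_0b4958_nt.UpperExponent

theorem result :
    ∀ a : ℕ → ℕ, a 1 = 1 → a 2 = 2 →
      (∀ n : ℕ, 3 ≤ n →
        IsLeast {m : ℕ | a (n - 1) < m ∧
          ∃ i j : ℕ, 1 ≤ i ∧ i < j ∧ j < n ∧ m = ∑ k ∈ Finset.Icc i j, a k} (a n)) →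
      ∀ ε : ℝ, 0 < ε → ∃ C : ℝ, 0 < C ∧ ∀ n : ℕ, 1 ≤ n →
        (a n : ℝ) ≤ C * (n : ℝ) ^ ((1 + Real.sqrt 10) / 3 + ε) := by
  intro a h1 h2 h ε hε
  have hb := Run7.h437.closed_of_rule a h1 h2 h
  obtain ⟨C, hC1, hC⟩ := hb.upper ((1 + Real.sqrt 10) / 3 + ε) (by linarith)
  refine ⟨C, by linarith, ?_⟩
  intro n hn
  obtain ⟨k, rfl⟩ : ∃ k, n = k + 1 := ⟨n - 1, by omega⟩
  have := hC k
  push_cast
  exact this

end Pool.Agent.Results.MP_0b4958_nt.UpperExponent
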